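import Pool.Agent.H741.RS.Stm

/-!
# Project RS of helper741, statement MISS: invariance of all kernels
-/

set_option autoImplicit false
open scoped ComplexConjugate Topology

namespace Pool.Agent.H315.RS

open Pool.Agent.H741.RS MvPolynomial

variable {n : ℕ}

/-! ### composition of polynomials with unitary maps -/

/-- the polynomial `a ∘ U` -/
noncomputable def cmp (U : V n ≃ₗᵢ[ℂ] V n) (a : MvPolynomial (Fin n) ℂ) : MvPolynomial (Fin n) ℂ :=
  aeval (fun l => ∑ m : Fin n, C ((U (EuclideanSpace.single m (1 : ℂ))) l) * X m) a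

theorem apply_eq (U : V n ≃ₗᵢ[ℂ] V n) (z : V n) (l : Fin n) :
    (U z) l = ∑ m : Fin n, (U (EuclideanSpace.single m (1 : ℂ))) l * z m := by
  have h1 : z = ∑ m : Fin n, z m • (EuclideanSpace.single m (1 : ℂ) : V n) := by
    have := (EuclideanSpace.basisFun (Fin n) ℂ).sum_repr z
    simpa using this.symm
  conv_lhs => rw [h1]
  rw [map_sum]
  simp only [map_smul]
  simp [WithLp.ofLp_sum, mul_comm]

theorem ev_cmp (U : V n ≃ₗᵢ[ℂ] V n) (a : MvPolynomial (Fin n) ℂ) (z : V n) :
    ev (cmp U a) z = ev a (U z) := by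
  unfold ev cmp
  induction a using MvPolynomial.induction_on with
  | C c => simp
  | add p q hp hq => rw [map_add, map_add, map_add, hp, hq]
  | mul_X p i hp =>
    rw [map_mul, map_mul, map_mul, hp, aeval_X, eval_X, apply_eq U z i]
    simp

theorem cmp_hom (U : V n ≃ₗᵢ[ℂ] V n) {a : MvPolynomial (Fin n) ℂ} {i : ℕ} (ha : a.IsHomogeneous i) :
    (cmp U a).IsHomogeneous i := by
  have h := ha.aeval (fun l => ∑ m : Fin n, C ((U (EuclideanSpace.single m (1 : ℂ))) l) * X m)
    (n := 1) (fun l => IsHomogeneous.sum _ _ _ (fun m _ => by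
      have := (isHomogeneous_C (Fin n) ((U (EuclideanSpace.single m (1 : ℂ))) l)).mul
        (isHomogeneous_X ℂ m)
      simpa using this))
  rw [one_mul] at h
  exact h

/-! ### homogeneous kernels -/

theorem hker_of {ι : Type} [Fintype ι] {i j : ℕ} (a b : ι → MvPolynomial (Fin n) ℂ)
    (h : ∀ x, (a x).IsHomogeneous i ∧ (b x).IsHomogeneous j) (u : V n → V n → ℂ)
    (hu : ∀ z w, u z w = ∑ x, ev (a x) z * conj (ev (b x) w)) : HKer i j u := by
  refine ⟨Fintype.card ι, fun x => a ((Fintype.equivFin ι).symm x),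
    fun x => b ((Fintype.equivFin ι).symm x), fun x => h _, fun z w => ?_⟩
  rw [hu, ← (Fintype.equivFin ι).symm.sum_comp]

theorem hker_zero (i j : ℕ) : HKer i j (0 : V n → V n → ℂ) :=
  ⟨0, fun x => x.elim0, fun x => x.elim0, fun x => x.elim0, fun z w => by simp⟩

theorem hker_add {i j : ℕ} {u v : V n → V n → ℂ} (hu : HKer i j u) (hv : HKer i j v) :
    HKer i j (fun z w => u z w + v z w) := by
  obtain ⟨m, a, b, h, e⟩ := hu
  obtain ⟨m', a', b', h', e'⟩ := hv
  refine hker_of (ι := Fin m ⊕ Fin m') (Sum.elim a a') (Sum.elim b b') ?_ _ ?_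
  · rintro (x | x)
    · exact h x
    · exact h' x
  · intro z w
    rw [Fintype.sum_sum_type, e, e']
    simp

theorem hker_smul {i j : ℕ} {u : V n → V n → ℂ} (hu : HKer i j u) (c : ℂ) :
    HKer i j (fun z w => c * u z w) := by
  obtain ⟨m, a, b, h, e⟩ := hu
  refine ⟨m, fun x => C c * a x, b, fun x => ⟨?_, (h x).2⟩, fun z w => ?_⟩
  · have := (isHomogeneous_C (Fin n) c).mul (h x).1
    simpa using this
  · show c * u z w = ∑ x, ev (C c * a x) z * conj (ev (b x) w)
    rw [e, Finset.mul_sum]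
    refine Finset.sum_congr rfl (fun x _ => ?_)
    unfold ev
    rw [map_mul, eval_C]
    ring

theorem hker_star {i j : ℕ} {u : V n → V n → ℂ} (hu : HKer i j u) :
    HKer j i (fun z w => conj (u w z)) := by
  obtain ⟨m, a, b, h, e⟩ := hu
  refine ⟨m, b, a, fun x => ⟨(h x).2, (h x).1⟩, fun z w => ?_⟩
  show conj (u w z) = ∑ x, ev (b x) z * conj (ev (a x) w)
  rw [e, map_sum]
  refine Finset.sum_congr rfl (fun x _ => ?_)
  rw [map_mul, Complex.conj_conj]
  ring

theorem hp_eq (z w : V n) : hp z w = ∑ l, z l * conj (w l) := by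
  unfold hp
  rw [PiLp.inner_apply]
  refine Finset.sum_congr rfl (fun l _ => ?_)
  simp

theorem hker_hp {i j : ℕ} {u : V n → V n → ℂ} (hu : HKer i j u) :
    HKer (i + 1) (j + 1) (fun z w => u z w * hp z w) := by
  obtain ⟨m, a, b, h, e⟩ := hu
  refine hker_of (ι := Fin m × Fin n) (fun x => a x.1 * X x.2) (fun x => b x.1 * X x.2) ?_ _ ?_
  · intro x
    exact ⟨(h x.1).1.mul (isHomogeneous_X ℂ x.2), (h x.1).2.mul (isHomogeneous_X ℂ x.2)⟩
  · intro z w
    rw [e, hp_eq, Finset.sum_mul_sum, Fintype.sum_prod_type]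
    refine Finset.sum_congr rfl (fun x _ => Finset.sum_congr rfl (fun l _ => ?_))
    unfold ev
    rw [map_mul, map_mul, eval_X, eval_X, map_mul]
    ring

/-- the kernels with one or two components -/
theorem aker_pair {k i j : ℕ} (hi : i ≤ k) (hj : j ≤ k) (h01 : ¬ (i = 0 ∧ j = 1))
    (h10 : ¬ (i = 1 ∧ j = 0)) (h11 : ¬ (i = 1 ∧ j = 1)) {u v : V n → V n → ℂ}
    (hu : HKer i j u) (hv : HKer j i v) : AKer k (fun z w => u z w + v z w) := by
  refine ⟨fun x y => fun z w => (if x = i ∧ y = j then u z w else 0) +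
    (if x = j ∧ y = i then v z w else 0), ?_, ?_, ?_, ?_, ?_⟩
  · intro x y
    have e1 : HKer x y (fun z w => if x = i ∧ y = j then u z w else 0) := by
      by_cases h : x = i ∧ y = j
      · obtain ⟨rfl, rfl⟩ := h
        simpa using hu
      · simp only [if_neg h]
        exact hker_zero x y
    have e2 : HKer x y (fun z w => if x = j ∧ y = i then v z w else 0) := by
      by_cases h : x = j ∧ y = i
      · obtain ⟨rfl, rfl⟩ := h
        simpa using hv
      · simp only [if_neg h]
        exact hker_zero x y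
    exact hker_add e1 e2
  · funext z w
    have a1 : ¬ (0 = i ∧ 1 = j) := fun h => h01 ⟨h.1.symm, h.2.symm⟩
    have a2 : ¬ (0 = j ∧ 1 = i) := fun h => h10 ⟨h.2.symm, h.1.symm⟩
    simp only [if_neg a1, if_neg a2, add_zero, Pi.zero_apply]
  · funext z w
    have a1 : ¬ (1 = i ∧ 0 = j) := fun h => h10 ⟨h.1.symm, h.2.symm⟩
    have a2 : ¬ (1 = j ∧ 0 = i) := fun h => h01 ⟨h.2.symm, h.1.symm⟩
    simp only [if_neg a1, if_neg a2, add_zero, Pi.zero_apply]
  · funext z w
    have a1 : ¬ (1 = i ∧ 1 = j) := fun h => h11 ⟨h.1.symm, h.2.symm⟩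
    have a2 : ¬ (1 = j ∧ 1 = i) := fun h => h11 ⟨h.2.symm, h.1.symm⟩
    simp only [if_neg a1, if_neg a2, add_zero, Pi.zero_apply]
  · intro z w
    have key : ∀ (p q : ℕ) (c : ℂ), p ≤ k → q ≤ k →
        ∑ x ∈ Finset.range (k + 1), ∑ y ∈ Finset.range (k + 1), (if x = p ∧ y = q then c else 0) = c := by
      intro p q c hp hq
      rw [Finset.sum_eq_single_of_mem p (Finset.mem_range.mpr (by omega))]
      · rw [Finset.sum_eq_single_of_mem q (Finset.mem_range.mpr (by omega))]
        · simp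
        · intro y _ hy
          rw [if_neg (fun h => hy h.2)]
      · intro x _ hx
        exact Finset.sum_eq_zero (fun y _ => if_neg (fun h => hx h.1))
    simp only [Finset.sum_add_distrib]
    rw [key i j _ hi hj, key j i _ hj hi]

/-! ### the main argument -/

/-- the hypothesis of `S_MISS` -/
def Hyp (k : ℕ) (G : Subgroup (V n ≃ₗᵢ[ℂ] V n)) (U : V n ≃ₗᵢ[ℂ] V n) : Prop :=
  ∀ u : V n → V n → ℂ, Herm u → AKer k u → (∀ g ∈ G, Inv u g) → Inv u U

theorem case1 {k : ℕ} {G : Subgroup (V n ≃ₗᵢ[ℂ] V n)} {U : V n ≃ₗᵢ[ℂ] V n} (H : Hyp k G U)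
    {i j : ℕ} (hi : i ≤ k) (hj : j ≤ k) (h01 : ¬ (i = 0 ∧ j = 1)) (h10 : ¬ (i = 1 ∧ j = 0))
    (h11 : ¬ (i = 1 ∧ j = 1)) {u : V n → V n → ℂ} (hu : HKer i j u) (hG : ∀ g ∈ G, Inv u g) :
    Inv u U := by
  have hc : ∀ c : ℂ, Inv (fun z w => c * u z w + conj c * conj (u w z)) U := by
    intro c
    apply H
    · intro z w
      simp only [map_add, map_mul, Complex.conj_conj]
      ring
    · exact aker_pair hi hj h01 h10 h11 (hker_smul hu c) (hker_smul (hker_star hu) (conj c))
    · intro g hg z w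
      simp only [hG g hg z w, hG g hg w z]
  intro z w
  have e1 := hc 1 z w
  have e2 := hc Complex.I z w
  simp only [map_one, one_mul, Complex.conj_I] at e1 e2
  have hI : Complex.I ≠ 0 := Complex.I_ne_zero
  have e3 : Complex.I * (u (U z) (U w) - conj (u (U w) (U z))) = Complex.I * (u z w - conj (u w z)) := by
    linear_combination e2
  have e4 := mul_left_cancel₀ hI e3
  linear_combination (e1 + e4) / 2

theorem hker_cont {i j : ℕ} {u : V n → V n → ℂ} (hu : HKer i j u) :
    Continuous (fun x : V n × V n => u x.1 x.2) := by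
  obtain ⟨m, a, b, h, e⟩ := hu
  simp only [e]
  have hev : ∀ p : MvPolynomial (Fin n) ℂ, Continuous (fun z : V n => ev p z) := by
    intro p
    unfold ev
    exact (MvPolynomial.continuous_eval p).comp (by fun_prop)
  refine continuous_finsetSum _ (fun x _ => ?_)
  exact ((hev (a x)).comp continuous_fst).mul
    (Complex.continuous_conj.comp ((hev (b x)).comp continuous_snd))

theorem hp_inv (U : V n ≃ₗᵢ[ℂ] V n) (z w : V n) : hp (U z) (U w) = hp z w := by
  unfold hp
  exact U.inner_map_map w z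

/-- cancelling `hp` -/
theorem cancel (hn : 1 ≤ n) {D : V n × V n → ℂ} (hD : Continuous D)
    (h : ∀ z w, D (z, w) * hp z w = 0) (z w : V n) : D (z, w) = 0 := by
  set x : V n := EuclideanSpace.single (⟨0, hn⟩ : Fin n) (1 : ℂ) with hx
  have hxx : hp x x = 1 := by
    unfold hp
    rw [inner_self_eq_norm_sq_to_K, hx]
    simp
  have hexp : ∀ t : ℝ, hp (z + (t : ℂ) • x) (w + (t : ℂ) • x) =
      hp z w + t * ((hp z x + hp x w) + t) := by
    intro t
    unfold hp at hxx ⊢
    rw [inner_add_left, inner_add_right, inner_add_right, inner_smul_left, inner_smul_left,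
      inner_smul_right, inner_smul_right, hxx, Complex.conj_ofReal]
    ring
  have hev : ∀ᶠ t : ℝ in 𝓝[≠] (0 : ℝ), hp (z + (t : ℂ) • x) (w + (t : ℂ) • x) ≠ 0 := by
    by_cases hA : hp z w = 0
    · by_cases hB : hp z x + hp x w = 0
      · filter_upwards [self_mem_nhdsWithin] with t ht
        rw [hexp, hA, hB, zero_add, zero_add]
        have : (t : ℂ) ≠ 0 := by exact_mod_cast ht
        exact mul_ne_zero this this
      · have hc : ContinuousAt (fun t : ℝ => (hp z x + hp x w) + (t : ℂ)) 0 := by fun_prop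
        have h2 := hc.eventually_ne (y := 0) (by simpa using hB)
        filter_upwards [self_mem_nhdsWithin, h2.filter_mono nhdsWithin_le_nhds] with t ht h3
        rw [hexp, hA, zero_add]
        have : (t : ℂ) ≠ 0 := by exact_mod_cast ht
        exact mul_ne_zero this h3
    · have hc : ContinuousAt (fun t : ℝ => hp z w + (t : ℂ) * ((hp z x + hp x w) + t)) 0 := by
        fun_prop
      have h2 := hc.eventually_ne (y := 0) (by simpa using hA)
      filter_upwards [h2.filter_mono nhdsWithin_le_nhds] with t h3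
      rw [hexp]
      exact h3
  have hz : ∀ᶠ t : ℝ in 𝓝[≠] (0 : ℝ), D (z + (t : ℂ) • x, w + (t : ℂ) • x) = 0 := by
    filter_upwards [hev] with t ht
    exact (mul_eq_zero.mp (h _ _)).resolve_right ht
  have hcont : Continuous (fun t : ℝ => D (z + (t : ℂ) • x, w + (t : ℂ) • x)) := by
    apply hD.comp
    fun_prop
  have hl1 : Filter.Tendsto (fun t : ℝ => D (z + (t : ℂ) • x, w + (t : ℂ) • x)) (𝓝[≠] (0 : ℝ))
      (𝓝 (D (z, w))) := by
    have := (hcont.tendsto 0).mono_left (nhdsWithin_le_nhds (s := {(0 : ℝ)}ᶜ))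
    simpa using this
  have hl2 : Filter.Tendsto (fun t : ℝ => D (z + (t : ℂ) • x, w + (t : ℂ) • x)) (𝓝[≠] (0 : ℝ))
      (𝓝 0) :=
    (tendsto_const_nhds (x := (0 : ℂ))).congr' (hz.mono (fun t ht => ht.symm))
  exact tendsto_nhds_unique hl1 hl2

theorem case2 (hn : 1 ≤ n) {k : ℕ} (hk : 2 ≤ k) {G : Subgroup (V n ≃ₗᵢ[ℂ] V n)}
    {U : V n ≃ₗᵢ[ℂ] V n} (H : Hyp k G U) {i j : ℕ} (hi : i ≤ k) (hj : j ≤ k)
    {u : V n → V n → ℂ} (hu : HKer i j u) (hG : ∀ g ∈ G, Inv u g) : Inv u U := by
  by_cases hc : (i = 0 ∧ j = 1) ∨ (i = 1 ∧ j = 0) ∨ (i = 1 ∧ j = 1)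
  · have hi1 : i + 1 ≤ k := by omega
    have hj1 : j + 1 ≤ k := by omega
    have h1 : Inv (fun z w => u z w * hp z w) U := by
      refine case1 H hi1 hj1 (by omega) (by omega) (by omega) (hker_hp hu) ?_
      intro g hg z w
      simp only [hG g hg z w, hp_inv]
    have hcon := hker_cont hu
    have hD : Continuous (fun x : V n × V n => u (U x.1) (U x.2) - u x.1 x.2) := by
      refine Continuous.sub ?_ hcon
      exact hcon.comp ((U.continuous.comp continuous_fst).prodMk (U.continuous.comp continuous_snd))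
    intro z w
    have h2 := cancel hn hD (fun z w => by
      have h3 := h1 z w
      simp only [hp_inv] at h3
      simp only
      linear_combination h3) z w
    exact sub_eq_zero.mp h2
  · exact case1 H hi hj (by tauto) (by tauto) (by tauto) hu hG

/-- the averaged kernel -/
noncomputable def kap (G : Subgroup (V n ≃ₗᵢ[ℂ] V n)) [Fintype G] (a b : MvPolynomial (Fin n) ℂ)
    (z w : V n) : ℂ := ∑ g : G, ev a (g.1 z) * conj (ev b (g.1 w))

theorem kap_hker (G : Subgroup (V n ≃ₗᵢ[ℂ] V n)) [Fintype G] {a b : MvPolynomial (Fin n) ℂ}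
    {i j : ℕ} (ha : a.IsHomogeneous i) (hb : b.IsHomogeneous j) : HKer i j (kap G a b) := by
  refine hker_of (ι := G) (fun g => cmp g.1 a) (fun g => cmp g.1 b)
    (fun g => ⟨cmp_hom _ ha, cmp_hom _ hb⟩) _ ?_
  intro z w
  unfold kap
  simp only [ev_cmp]

theorem kap_inv (G : Subgroup (V n ≃ₗᵢ[ℂ] V n)) [Fintype G] (a b : MvPolynomial (Fin n) ℂ) :
    ∀ g ∈ G, Inv (kap G a b) g := by
  intro h hh z w
  unfold kap
  rw [← Equiv.sum_comp (Equiv.mulRight (⟨h, hh⟩ : G))
    (fun g : G => ev a (g.1 z) * conj (ev b (g.1 w)))]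
  rfl

theorem kap_sum (G : Subgroup (V n ≃ₗᵢ[ℂ] V n)) [Fintype G] {a b : MvPolynomial (Fin n) ℂ} {k : ℕ}
    (ha : a.totalDegree ≤ k) (hb : b.totalDegree ≤ k) (z w : V n) : kap G a b z w =
      ∑ i ∈ Finset.range (k + 1), ∑ j ∈ Finset.range (k + 1),
        kap G (homogeneousComponent i a) (homogeneousComponent j b) z w := by
  have hc : ∀ c : MvPolynomial (Fin n) ℂ, c.totalDegree ≤ k →
      c = ∑ i ∈ Finset.range (k + 1), homogeneousComponent i c := by
    intro c hc
    conv_lhs => rw [← sum_homogeneousComponent c]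
    apply Finset.sum_subset
    · intro x hx
      rw [Finset.mem_range] at hx ⊢
      omega
    · intro x _ hx
      rw [Finset.mem_range, not_lt] at hx
      exact homogeneousComponent_eq_zero _ _ (by omega)
  have hev : ∀ c : MvPolynomial (Fin n) ℂ, c.totalDegree ≤ k → ∀ y : V n,
      ev c y = ∑ i ∈ Finset.range (k + 1), ev (homogeneousComponent i c) y := by
    intro c h y
    conv_lhs => rw [hc c h]
    unfold ev
    rw [map_sum]
  unfold kap
  calc ∑ g : G, ev a (g.1 z) * conj (ev b (g.1 w)) =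
      ∑ g : G, ∑ i ∈ Finset.range (k + 1), ∑ j ∈ Finset.range (k + 1),
        ev (homogeneousComponent i a) (g.1 z) * conj (ev (homogeneousComponent j b) (g.1 w)) := by
        refine Finset.sum_congr rfl (fun g _ => ?_)
        rw [hev a ha, hev b hb, map_sum, Finset.sum_mul_sum]
    _ = _ := by
        rw [Finset.sum_comm]
        refine Finset.sum_congr rfl (fun i _ => ?_)
        rw [Finset.sum_comm]

theorem t_MISS (_ : S_KCL) : S_MISS := by
  intro n k G _ U hn hk H a b ha hb z w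
  have h1 := kap_sum G ha hb (U z) (U w)
  have h2 := kap_sum G ha hb z w
  have h3 : kap G a b (U z) (U w) = kap G a b z w := by
    rw [h1, h2]
    refine Finset.sum_congr rfl (fun i hi => Finset.sum_congr rfl (fun j hj => ?_))
    rw [Finset.mem_range] at hi hj
    exact case2 hn hk H (by omega) (by omega)
      (kap_hker G (homogeneousComponent_isHomogeneous i a) (homogeneousComponent_isHomogeneous j b))
      (kap_inv G _ _) z w
  exact h3

end Pool.Agent.H315.RS
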